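import Pool.Agent.Q135.Ties

/-!
Tie-breaking discrepancies in self-interest cumulative subtraction games are bounded by
`min S + max S - 1`.
-/

namespace Pool.Agent.Results.MP_5cfb27_co.DiscrepancyBounded

open Q135.Ties

/-- The legal moves at heap size `h`. -/
def mv (S : Finset ℕ) (h : ℕ) : Finset ℕ := S.filter (fun s => 0 < s ∧ s ≤ h)

/-- The value of the zero-sum version of the game. -/
noncomputable def v (S : Finset ℕ) (h : ℕ) : ℤ :=
  if hne : (mv S h).attach.Nonempty then
    (mv S h).attach.sup' hne (fun s => (s.1 : ℤ) - v S (h - s.1))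
  else 0
termination_by h
decreasing_by
  have := s.2
  simp only [mv, Finset.mem_filter] at this
  omega

theorem v_ge (S : Finset ℕ) (h s : ℕ) (hs : s ∈ mv S h) : (s : ℤ) - v S (h - s) ≤ v S h := by
  have hne : (mv S h).attach.Nonempty := ⟨⟨s, hs⟩, Finset.mem_attach _ _⟩
  rw [v.eq_def S h, dif_pos hne]
  exact Finset.le_sup' (fun s : {x // x ∈ mv S h} => (s.1 : ℤ) - v S (h - s.1))
    (Finset.mem_attach _ ⟨s, hs⟩)

theorem v_attained (S : Finset ℕ) (h : ℕ) (hne : (mv S h).Nonempty) :
    ∃ s ∈ mv S h, v S h = (s : ℤ) - v S (h - s) := by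
  have hne' : (mv S h).attach.Nonempty := by
    obtain ⟨s, hs⟩ := hne
    exact ⟨⟨s, hs⟩, Finset.mem_attach _ _⟩
  rw [v.eq_def S h, dif_pos hne']
  obtain ⟨s, -, hs⟩ := Finset.exists_mem_eq_sup' hne'
    (fun s : {x // x ∈ mv S h} => (s.1 : ℤ) - v S (h - s.1))
  exact ⟨s.1, s.2, hs⟩

theorem v_none (S : Finset ℕ) (h : ℕ) (hne : ¬ (mv S h).Nonempty) : v S h = 0 := by
  have : ¬ (mv S h).attach.Nonempty := by
    rintro ⟨s, -⟩
    exact hne ⟨s.1, s.2⟩
  rw [v.eq_def S h, dif_neg this]

/-- `0 ≤ v h` and `v h` is at most every upper bound of the legal moves. -/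
theorem v_bounds (S : Finset ℕ) (h : ℕ) :
    0 ≤ v S h ∧ ∀ t : ℕ, (∀ s ∈ mv S h, s ≤ t) → v S h ≤ t := by
  induction h using Nat.strong_induction_on with
  | _ h ih =>
    by_cases hne : (mv S h).Nonempty
    · constructor
      · set s := (mv S h).max' hne with hs
        have hsm : s ∈ mv S h := Finset.max'_mem _ _
        have hsm' := hsm
        simp only [mv, Finset.mem_filter] at hsm'
        have h1 := v_ge S h s hsm
        have h2 := (ih (h - s) (by omega)).2 s (by
          intro t ht
          apply Finset.le_max'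
          simp only [mv, Finset.mem_filter] at ht ⊢
          exact ⟨ht.1, ht.2.1, by omega⟩)
        linarith
      · intro t ht
        obtain ⟨s, hs, he⟩ := v_attained S h hne
        have hsm' := hs
        simp only [mv, Finset.mem_filter] at hsm'
        have h2 := (ih (h - s) (by omega)).1
        have h3 : (s : ℤ) ≤ t := by exact_mod_cast ht s hs
        linarith
    · rw [v_none S h hne]
      exact ⟨le_refl _, fun t _ => by positivity⟩

/-- The main estimates. -/
theorem main (S : Finset ℕ) (hne : S.Nonempty) (hpos : ∀ s ∈ S, 0 < s) (h : ℕ) :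
    ∀ c d : Conv,
      (h : ℤ) - (S.min' hne - 1) + v S h ≤ 2 * (out S c d h).1 ∧
      (h : ℤ) - (S.min' hne - 1) - v S h ≤ 2 * (out S c d h).2 ∧
      (out S c d h).1 + (out S c d h).2 ≤ h := by
  induction h using Nat.strong_induction_on with
  | _ h ih =>
    intro c d
    by_cases hmv : (mv S h).Nonempty
    · obtain ⟨s0, hs0⟩ := hmv
      obtain ⟨s1, hs1, hv1⟩ := v_attained S h ⟨s0, hs0⟩
      simp only [mv, Finset.mem_filter] at hs0 hs1
      obtain ⟨hle, s, hs, hp, hsle, e1, e2⟩ :=
        out_attained S c d h s0 hs0.1 hs0.2.1 hs0.2.2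
      have hle1 := hle s1 hs1.1 hs1.2.1 hs1.2.2
      obtain ⟨-, i2, -⟩ := ih (h - s1) (by omega) d c
      obtain ⟨j1, -, j3⟩ := ih (h - s) (by omega) d c
      have hv2 := v_ge S h s (by simp only [mv, Finset.mem_filter]; exact ⟨hs, hp, hsle⟩)
      have c1 : ((h - s1 : ℕ) : ℤ) = (h : ℤ) - s1 := by
        have := hs1.2.2
        omega
      have c2 : ((h - s : ℕ) : ℤ) = (h : ℤ) - s := by omega
      rw [c1] at i2
      rw [c2] at j1
      have hle1' : (s1 : ℤ) + (out S d c (h - s1)).2 ≤ (out S c d h).1 := by exact_mod_cast hle1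
      have e2' : ((out S d c (h - s)).1 : ℤ) = (out S c d h).2 := by exact_mod_cast e2
      refine ⟨?_, ?_, ?_⟩
      · rw [hv1]
        linarith
      · rw [← e2']
        linarith
      · omega
    · have hlt : (h : ℤ) ≤ S.min' hne - 1 := by
        by_contra hcon
        push Not at hcon
        apply hmv
        refine ⟨S.min' hne, ?_⟩
        simp only [mv, Finset.mem_filter]
        exact ⟨Finset.min'_mem _ _, hpos _ (Finset.min'_mem _ _), by omega⟩
      have hz : out S c d h = (0, 0) := by
        apply out_zero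
        intro s hs h0 hle
        exact hmv ⟨s, by simp only [mv, Finset.mem_filter]; exact ⟨hs, h0, hle⟩⟩
      rw [hz, v_none S h hmv]
      refine ⟨?_, ?_, ?_⟩
      · simp only; push_cast; linarith
      · simp only; push_cast; linarith
      · simp

/-- For every finite nonempty set `S` of positive integers, every two settings, both players and
every heap size, the tie-breaking discrepancy is at most `min S + max S - 1` in absolute value. -/
theorem result (S : Finset ℕ) (hne : S.Nonempty) (hpos : ∀ s ∈ S, 0 < s) (c d c' d' : Conv)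
    (h : ℕ) :
    |((out S c' d' h).1 : ℤ) - ((out S c d h).1 : ℤ)| ≤ (S.min' hne : ℤ) + S.max' hne - 1 ∧
    |((out S c' d' h).2 : ℤ) - ((out S c d h).2 : ℤ)| ≤ (S.min' hne : ℤ) + S.max' hne - 1 := by
  obtain ⟨a1, a2, a3⟩ := main S hne hpos h c d
  obtain ⟨b1, b2, b3⟩ := main S hne hpos h c' d'
  obtain ⟨v1, v2⟩ := v_bounds S h
  have v3 := v2 (S.max' hne) (by
    intro s hs
    simp only [mv, Finset.mem_filter] at hs
    exact Finset.le_max' _ _ hs.1)
  have a3' : ((out S c d h).1 : ℤ) + (out S c d h).2 ≤ h := by exact_mod_cast a3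
  have b3' : ((out S c' d' h).1 : ℤ) + (out S c' d' h).2 ≤ h := by exact_mod_cast b3
  constructor <;> rw [abs_le] <;> constructor <;> linarith

end Pool.Agent.Results.MP_5cfb27_co.DiscrepancyBounded
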